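import Pool.Agent.Helper52.EHP.Final
import Pool.Agent.Helper1.EHP.NumB
import Pool.Agent.Helper7.EHP.Sharp

/-!
# The exact value of the smallest measure of `{|f| < 1}`, all roots in `[-1,1]`

`μ = inf |{x ∈ ℝ : |f(x)| < 1}|` over the monic polynomials with all roots in `[-1,1]` is the minimum
of the explicit function `L(k,u,v) = (2k/(k+1)²)(v-u)(1-1/(uv))` over the triples `1 < u < k < v` for
which `u` and `v` solve `log w = m(k) log |(kw-1)/(w-k)|`, `m(k) = log((k+1)²/(2k))/log k`; it is the
value at the critical triple near `(38.887, 17.862, 55.4256)`, and `μ = 1.8344...`.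

Proof idea. Upper bound: the measure with an atom of mass `m` at `1` and constant potential `0` on
`[-1,q]`, `1+q = 8k/(k+1)²`. Lower bound: after moving the roots of the last (and of the first)
component of `{|f|<1}` to `1` (and to `-1`), integrate `log|f|` against the measures
`δ_z - ω_z + ε(δ_y - ω_y) + M ω`, `z` an end of the last component; the contribution of the other
components is estimated by a penalty lemma in the variable `√(x+1)`.
-/

namespace Pool.Agent.Results.MP_28e671_an.ExactInfimum

open EHP

/-- There is a critical triple, every critical triple gives `μ = L(k,u,v)`, `μ` is the minimum of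
the explicit family of values, and `1.8344 < μ < 1.8345`. -/
theorem result : (∃ k u v, Crit k u v) ∧ (∀ k u v, Crit k u v → mu = LFun k u v) ∧
    IsLeast valSet mu ∧ 1.8344 < mu ∧ mu < 1.8345 :=
  final_of exists_opt fun _ _ _ O =>
    { numB := fun h1 h2 h3 h4 => numB h1 h2 h3 h4
      sharp := fun h1 h2 h3 h4 h5 h6 h7 h8 => sharp O h1 h2 h3 h4 h5 h6 h7 h8
      opt_lt := opt_lt O }

end Pool.Agent.Results.MP_28e671_an.ExactInfimum
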